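import Pool.Agent.H78.STN.Stmts2

/-!
# Board sto, row EN1
-/

set_option autoImplicit false

namespace Pool.STN

/-- a block of `n` even numbers from `s` -/
def en1_blk : ℕ → ℕ → Bool
  | 0, _ => true
  | n + 1, s => (Nat.beq (s % 3) 0 || sim 70 s s 3) && en1_blk n (s + 2)

theorem en1_spec : ∀ n s : ℕ, en1_blk n s = true → ∀ i, i < n → (s + 2 * i) % 3 ≠ 0 →
    sim 70 (s + 2 * i) (s + 2 * i) 3 = true
  | 0, _, _ => fun i hi => absurd hi (Nat.not_lt_zero i)
  | n + 1, s, h => by
    intro i hi h3
    unfold en1_blk at h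
    obtain ⟨h1, h2⟩ := (Bool.and_eq_true _ _).mp h
    rcases i with _ | i
    · have e : s + 2 * 0 = s := by omega
      rw [e] at h3 ⊢
      rcases (Bool.or_eq_true _ _).mp h1 with h5 | h5
      · exact absurd (Nat.eq_of_beq_eq_true h5) h3
      · exact h5
    · have e : s + 2 * (i + 1) = s + 2 + 2 * i := by omega
      rw [e] at h3 ⊢
      exact en1_spec n (s + 2) h2 i (by omega) h3

theorem en1_use (s m0 : ℕ) (h : en1_blk 501 s = true) (h1 : s ≤ m0) (h2 : m0 < s + 1002)
    (hs : s % 2 = 0) (hm : m0 % 2 = 0) (h3 : m0 % 3 ≠ 0) : sim 70 m0 m0 3 = true := by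
  obtain ⟨i, hi⟩ : ∃ i, m0 = s + 2 * i := ⟨(m0 - s) / 2, by omega⟩
  rw [hi] at h3 ⊢
  exact en1_spec 501 s h i (by omega) h3

theorem en1_b0 : en1_blk 501 10000 = true := by decide +kernel

theorem en1_b1 : en1_blk 501 11002 = true := by decide +kernel

theorem en1_b2 : en1_blk 501 12004 = true := by decide +kernel

theorem en1_b3 : en1_blk 501 13006 = true := by decide +kernel

theorem en1_b4 : en1_blk 501 14008 = true := by decide +kernel

theorem en1_b5 : en1_blk 501 15010 = true := by decide +kernel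

theorem en1_b6 : en1_blk 501 16012 = true := by decide +kernel

theorem en1_b7 : en1_blk 501 17014 = true := by decide +kernel

theorem en1_b8 : en1_blk 501 18016 = true := by decide +kernel

theorem en1_b9 : en1_blk 501 19018 = true := by decide +kernel

theorem EN1_thm : ENStmt 1 := by
  intro m0 h1 h2 h3 h4 _ _ _ _ _
  by_cases c0 : m0 < 11002
  · exact en1_use _ m0 en1_b0 (by omega) (by omega) (by decide) h3 h4
  by_cases c1 : m0 < 12004
  · exact en1_use _ m0 en1_b1 (by omega) (by omega) (by decide) h3 h4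
  by_cases c2 : m0 < 13006
  · exact en1_use _ m0 en1_b2 (by omega) (by omega) (by decide) h3 h4
  by_cases c3 : m0 < 14008
  · exact en1_use _ m0 en1_b3 (by omega) (by omega) (by decide) h3 h4
  by_cases c4 : m0 < 15010
  · exact en1_use _ m0 en1_b4 (by omega) (by omega) (by decide) h3 h4
  by_cases c5 : m0 < 16012
  · exact en1_use _ m0 en1_b5 (by omega) (by omega) (by decide) h3 h4
  by_cases c6 : m0 < 17014
  · exact en1_use _ m0 en1_b6 (by omega) (by omega) (by decide) h3 h4
  by_cases c7 : m0 < 18016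
  · exact en1_use _ m0 en1_b7 (by omega) (by omega) (by decide) h3 h4
  by_cases c8 : m0 < 19018
  · exact en1_use _ m0 en1_b8 (by omega) (by omega) (by decide) h3 h4
  exact en1_use _ m0 en1_b9 (by omega) (by omega) (by decide) h3 h4

end Pool.STN
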